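import Mathlib
import Pool.Agent.V11182.Galvin.Indep

/-!
# Under GCH every regular uncountable `κ` carries `2 ^ (2 ^ κ)` non-Galvin `κ`-complete filters

Let `κ` be a regular uncountable cardinal. There is a `κ`-complete filter on `κ` without the Galvin
property (in ZFC). Under GCH there are `2 ^ (2 ^ κ)` of them, the largest possible number, any two
of them incompatible (some set is in one and its complement in the other one), all containing the
club filter. More generally every `κ`-complete filter `G` with `κ` pairwise disjoint positive sets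
has `2 ^ (2 ^ κ)` pairwise incompatible proper `κ`-complete extensions without the Galvin property.
-/

set_option autoImplicit false

namespace Pool.Agent.Results.MP_45cf3b_lc.ManyNonGalvin

open Cardinal Set

universe u

/-- The generalized continuum hypothesis (in the universe `u`). -/
def GCH : Prop := ∀ μ : Cardinal.{u}, ℵ₀ ≤ μ → (2 : Cardinal.{u}) ^ μ = Order.succ μ

/-- The filter `F` over the cardinal `κ` has the Galvin property: for every sequence of `κ⁺`
members of `F` there is a set of `κ` many indices with intersection in `F`. -/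
def Galvin (κ : Cardinal.{u}) (F : Filter κ.ord.ToType) : Prop :=
  ∀ A : (Order.succ κ).ord.ToType → Set κ.ord.ToType, (∀ i, A i ∈ F) →
    ∃ I : Set (Order.succ κ).ord.ToType, #I = κ ∧ ⋂ i ∈ I, A i ∈ F

/-- The filter `F` over the cardinal `κ` is `κ`-complete: the intersection of fewer than `κ`
members of `F` is a member of `F`. -/
def Complete (κ : Cardinal.{u}) (F : Filter κ.ord.ToType) : Prop :=
  ∀ S : Set (Set κ.ord.ToType), #S < κ → (∀ s ∈ S, s ∈ F) → ⋂₀ S ∈ F

/-- There are `κ` pairwise disjoint `G`-positive sets (sets whose complement is not in `G`). -/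
def ManyPositive (κ : Cardinal.{u}) (G : Filter κ.ord.ToType) : Prop :=
  ∃ P : κ.ord.ToType → Set κ.ord.ToType, (∀ a, (P a)ᶜ ∉ G) ∧
    ∀ a b, a ≠ b → Disjoint (P a) (P b)

/-- `F` is a proper `κ`-complete filter on `κ` containing the filter `G`, which does not have the
Galvin property. -/
structure NonGalvinExtension (κ : Cardinal.{u}) (G F : Filter κ.ord.ToType) : Prop where
  neBot : F.NeBot
  complete : Complete κ F
  extends' : ∀ X, X ∈ G → X ∈ F
  notGalvin : ¬ Galvin κ F

/-- `Φ` is a family of `2 ^ (2 ^ κ)` filters any two of which are incompatible: there is a set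
which is in one of them and whose complement is in the other one. -/
def Incompatible (κ : Cardinal.{u}) (Φ : Set (Set κ.ord.ToType) → Filter κ.ord.ToType) : Prop :=
  ∀ E E', E ≠ E' → ∃ Y, Y ∈ Φ E ∧ Yᶜ ∈ Φ E'

/-- **Main theorem.** -/
theorem result (κ : Cardinal.{u}) (hκ : κ.IsRegular) (hω : ℵ₀ < κ) :
    -- the answer to the question (no further hypothesis is needed)
    (∃ F : Filter κ.ord.ToType, F.NeBot ∧ Complete κ F ∧ ¬ Galvin κ F) ∧
    -- under GCH there are `2 ^ (2 ^ κ)` pairwise incompatible ones containing all clubs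
    (GCH.{u} → ∃ Φ : Set (Set κ.ord.ToType) → Filter κ.ord.ToType, Incompatible κ Φ ∧
      ∀ E, (Φ E).NeBot ∧ Complete κ (Φ E) ∧ (∀ C, IsClub C → C ∈ Φ E) ∧ ¬ Galvin κ (Φ E)) ∧
    -- so their number is the number of all filters on `κ`
    (GCH.{u} → #{F : Filter κ.ord.ToType // F.NeBot ∧ Complete κ F ∧ (∀ C, IsClub C → C ∈ F) ∧
      ¬ Galvin κ F} = 2 ^ (2 ^ κ : Cardinal.{u})) ∧
    -- the general form
    ((2 : Cardinal.{u}) ^< κ = κ → ∀ G : Filter κ.ord.ToType, Complete κ G → ManyPositive κ G →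
      ∃ Φ : Set (Set κ.ord.ToType) → Filter κ.ord.ToType, Incompatible κ Φ ∧
        ∀ E, NonGalvinExtension κ G (Φ E)) := by
  have gen : (2 : Cardinal.{u}) ^< κ = κ → ∀ G : Filter κ.ord.ToType, Complete κ G →
      ManyPositive κ G → ∃ Φ : Set (Set κ.ord.ToType) → Filter κ.ord.ToType, Incompatible κ Φ ∧
        ∀ E, NonGalvinExtension κ G (Φ E) := by
    rintro hp G hG ⟨P, hP, hPd⟩
    obtain ⟨h, hh⟩ := Pool.Agent.Y671.GV.evdiff_succ hκ
    obtain ⟨Φ, h1, h2⟩ := Pool.Agent.V11182.Galvin.many hκ hp G hG P hP hPd h hh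
    refine ⟨Φ, h2, fun E => ?_⟩
    obtain ⟨h3, h4, h5, A, hA, hA2⟩ := h1 E
    refine ⟨h4, h5, fun X hX => h3 hX, fun hGal => ?_⟩
    obtain ⟨I, hI, hI2⟩ := hGal A hA
    exact hA2 I hI.ge hI2
  have hst : IsStationary (Set.univ ∩ Pool.Agent.H348R6.GV.E κ.ord.ToType) := by
    rw [Set.univ_inter]
    exact Pool.Agent.Y671.GV.stationary_E hκ hω
  have gch : GCH.{u} → ∃ Φ : Set (Set κ.ord.ToType) → Filter κ.ord.ToType, Incompatible κ Φ ∧
      ∀ E, (Φ E).NeBot ∧ Complete κ (Φ E) ∧ (∀ C, IsClub C → C ∈ Φ E) ∧ ¬ Galvin κ (Φ E) := by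
    intro hgch
    obtain ⟨Φ, h1, h2⟩ := gen (Pool.Agent.V11182.Galvin.powerlt_of_gch hκ.aleph0_le hgch)
      (Pool.Agent.Y671.GV.clubOn hκ hω Set.univ)
      (Pool.Agent.Y671.GV.clubOn_complete hκ hω Set.univ)
      (Pool.Agent.Y671.GV.clubOn_positive hκ hω Set.univ hst)
    refine ⟨Φ, h1, fun E => ⟨(h2 E).neBot, (h2 E).complete, fun C hC => ?_, (h2 E).notGalvin⟩⟩
    exact (h2 E).extends' C ⟨C, hC, inter_subset_left⟩
  refine ⟨?_, gch, fun hgch => ?_, gen⟩
  · obtain ⟨F, h1, h2, -, A, hA, hA2⟩ := Pool.Agent.H348R6.GV.main hκ hω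
    refine ⟨F, h1, h2, fun hG => ?_⟩
    obtain ⟨I, hI, hI2⟩ := hG A hA
    exact hA2 I hI hI2
  · obtain ⟨Φ, h1, h2⟩ := gch hgch
    have hL : #(κ.ord.ToType) = κ := by rw [Cardinal.mk_toType, card_ord]
    have hcard : #(Set (Set κ.ord.ToType)) = 2 ^ (2 ^ κ : Cardinal.{u}) := by
      rw [mk_set, mk_set, hL]
    refine le_antisymm ?_ ?_
    · rw [← hcard]
      refine mk_le_of_injective (f := fun F => F.1.sets) ?_
      intro F F' hFF
      exact Subtype.ext (Filter.ext fun s => Set.ext_iff.1 hFF s)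
    · rw [← hcard]
      refine mk_le_of_injective (f := fun E => ⟨Φ E, h2 E⟩) ?_
      intro E E' hEE
      by_contra hne
      obtain ⟨Y, hY1, hY2⟩ := h1 E E' hne
      have hEE' : Φ E = Φ E' := congrArg Subtype.val hEE
      rw [← hEE'] at hY2
      have h3 := Filter.inter_mem hY1 hY2
      rw [inter_compl_self] at h3
      have := (h2 E).1
      exact Filter.empty_notMem (Φ E) h3

end Pool.Agent.Results.MP_45cf3b_lc.ManyNonGalvin
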